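import Pool.Agent.Run7.h757.MW.Stm4
import Pool.Agent.Run7.h544.MW.LAT

/-! # Piece LOWB of the project MW (helper757) -/

set_option autoImplicit false
set_option linter.unusedVariables false

open Finset MeasureTheory Filter

namespace Pool.Agent.Run7.h56.MW

open Pool.Agent.Run7.h757.MW

noncomputable section

/-- the positive points -/
def PP (k : ℕ) (lam : Fin k → ℝ) (y : ℕ) : Set (Fin k → ℕ) :=
  {n | (∀ i, 1 ≤ n i) ∧ ∑ i, ⌊lam i * (n i : ℝ) ^ k⌋₊ ≤ y}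

theorem fl_eq (lam : ℝ) (n k : ℕ) : fl lam (n ^ k) = ⌊lam * (n : ℝ) ^ k⌋₊ := by
  unfold fl
  push_cast
  rfl

theorem count {k : ℕ} {lam : Fin k → ℝ} {y : ℕ}
    (hf : {m : Fin k → ℤ | ∑ i, fl (lam i) ((m i).natAbs ^ k) ≤ y}.Finite) :
    (PP k lam y).Finite ∧
      2 ^ k * (PP k lam y).ncard ≤ {m : Fin k → ℤ | ∑ i, fl (lam i) ((m i).natAbs ^ k) ≤ y}.ncard := by
  have hinj : Function.Injective fun (n : Fin k → ℕ) (i : Fin k) => ((n i : ℕ) : ℤ) := by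
    intro n n' h
    funext i
    have h0 : ((n i : ℕ) : ℤ) = ((n' i : ℕ) : ℤ) := congrFun h i
    exact_mod_cast h0
  have hfin : (PP k lam y).Finite := by
    refine (hf.preimage hinj.injOn).subset ?_
    intro n hn
    show ∑ i, fl (lam i) (((n i : ℕ) : ℤ).natAbs ^ k) ≤ y
    simp only [Int.natAbs_natCast, fl_eq]
    exact hn.2
  refine ⟨hfin, ?_⟩
  have h1 : ((Set.univ : Set (Fin k → Bool)) ×ˢ PP k lam y).ncard = 2 ^ k * (PP k lam y).ncard := by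
    rw [Set.ncard_prod, Set.ncard_univ, Nat.card_eq_fintype_card]
    simp
  rw [← h1]
  refine Set.ncard_le_ncard_of_injOn
    (fun p i => if p.1 i then ((p.2 i : ℕ) : ℤ) else -((p.2 i : ℕ) : ℤ)) ?_ ?_ hf
  · rintro ⟨s, n⟩ ⟨-, hn⟩
    show ∑ i, fl (lam i) ((if s i then ((n i : ℕ) : ℤ) else -((n i : ℕ) : ℤ)).natAbs ^ k) ≤ y
    have e : ∀ i, (if s i then ((n i : ℕ) : ℤ) else -((n i : ℕ) : ℤ)).natAbs = n i := by
      intro i
      split_ifs <;> simp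
    simp only [e, fl_eq]
    exact hn.2
  · rintro ⟨s, n⟩ ⟨-, hn⟩ ⟨s', n'⟩ ⟨-, hn'⟩ h
    have h2 : ∀ i, (if s i then ((n i : ℕ) : ℤ) else -((n i : ℕ) : ℤ)) =
        (if s' i then ((n' i : ℕ) : ℤ) else -((n' i : ℕ) : ℤ)) := fun i => congrFun h i
    have h3 : ∀ i, s i = s' i ∧ n i = n' i := by
      intro i
      have h4 := h2 i
      have h5 : 1 ≤ n i := hn.1 i
      have h6 : 1 ≤ n' i := hn'.1 i
      cases hs : s i <;> cases hs' : s' i <;> simp only [hs, hs', if_true, if_false, Bool.false_eq_true] at h4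
      · exact ⟨rfl, by omega⟩
      · omega
      · omega
      · exact ⟨rfl, by omega⟩
    have h7 : s = s' := funext fun i => (h3 i).1
    have h8 : n = n' := funext fun i => (h3 i).2
    rw [h7, h8]

theorem t_LOWB : S_LOWB := by
  intro k lam hk hl hc
  obtain ⟨C, hC⟩ := Pool.Agent.Run7.h544.MW.t_LAT k k lam (by omega) (by omega) hl
  set c₀ := Real.Gamma (1 / k + 1) ^ k * ∏ i, lam i ^ (-(1 / (k : ℝ))) with hc₀
  have hk0 : (0 : ℝ) < k := by exact_mod_cast (by omega : 0 < k)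
  have hV : Vol k k lam = 2 ^ k * c₀ := by
    unfold Vol
    have h1 : Real.Gamma ((k : ℝ) / k + 1) = 1 := by
      rw [div_self hk0.ne', show (1 : ℝ) + 1 = 2 by norm_num, Real.Gamma_two]
    rw [h1, div_one, mul_pow, hc₀]
    ring
  set δ := (1 - c₀) / 2 with hδ
  have hδ0 : 0 < δ := by
    rw [hδ]
    linarith
  refine ⟨δ, hδ0, ?_⟩
  -- the error term
  have hlim : Tendsto (fun X : ℕ => |C| * (X : ℝ) ^ (-(1 / (k : ℝ)))) atTop (nhds (|C| * 0)) :=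
    ((tendsto_rpow_neg_atTop (by positivity : (0 : ℝ) < 1 / k)).comp
      tendsto_natCast_atTop_atTop).const_mul _
  rw [mul_zero] at hlim
  filter_upwards [hlim.eventually_lt_const hδ0, eventually_ge_atTop 1] with X hX hX1
  have hX0 : (0 : ℝ) < X := by exact_mod_cast hX1
  obtain ⟨hf, hcnt⟩ := hC X hX1
  obtain ⟨hPf, hP⟩ := count hf
  set A := ({m : Fin k → ℤ | ∑ i, fl (lam i) ((m i).natAbs ^ k) ≤ X}.ncard : ℝ) with hA
  have hP' : (2 : ℝ) ^ k * ((PP k lam X).ncard : ℝ) ≤ A := by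
    rw [hA]
    exact_mod_cast hP
  have e1 : (X : ℝ) ^ ((k : ℝ) / k) = X := by rw [div_self hk0.ne', Real.rpow_one]
  have e2 : (X : ℝ) ^ (((k : ℝ) - 1) / k) = X * (X : ℝ) ^ (-(1 / (k : ℝ))) := by
    conv_rhs => rw [← Real.rpow_one (X : ℝ), ← Real.rpow_mul hX0.le, ← Real.rpow_add hX0]
    congr 1
    field_simp
    ring
  rw [hV, e1, e2] at hcnt
  have h2 := (abs_le.1 hcnt).2
  have h2k : (1 : ℝ) ≤ 2 ^ k := one_le_pow₀ (by norm_num)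
  have h3 : C * (X * (X : ℝ) ^ (-(1 / (k : ℝ)))) ≤ δ * X := by
    have h4 : C * (X : ℝ) ^ (-(1 / (k : ℝ))) ≤ |C| * (X : ℝ) ^ (-(1 / (k : ℝ))) :=
      mul_le_mul_of_nonneg_right (le_abs_self C) (by positivity)
    nlinarith
  have h5 : ((PP k lam X).ncard : ℝ) ≤ c₀ * X + δ * X := by
    have h6 : (2 : ℝ) ^ k * ((PP k lam X).ncard : ℝ) ≤ 2 ^ k * (c₀ * X) + δ * X := by linarith
    have h7 : (2 : ℝ) ^ k * ((PP k lam X).ncard : ℝ) ≤ 2 ^ k * (c₀ * X + δ * X) := by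
      have h8 : 0 ≤ δ * X := by positivity
      nlinarith
    exact le_of_mul_le_mul_left h7 (by positivity)
  -- the represented numbers
  have hun : ({M : ℕ | M ≤ X ∧ ¬ ∃ n : Fin k → ℕ, (∀ i, 1 ≤ n i) ∧ ∑ i, ⌊lam i * (n i : ℝ) ^ k⌋₊ = M} ∪
      (fun n : Fin k → ℕ => ∑ i, ⌊lam i * (n i : ℝ) ^ k⌋₊) '' PP k lam X) ⊇ Set.Iic X := by
    intro M hM
    by_cases h : ∃ n : Fin k → ℕ, (∀ i, 1 ≤ n i) ∧ ∑ i, ⌊lam i * (n i : ℝ) ^ k⌋₊ = M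
    · obtain ⟨n, hn, hs⟩ := h
      refine Or.inr ⟨n, ⟨hn, ?_⟩, hs⟩
      rw [hs]
      exact hM
    · exact Or.inl ⟨hM, h⟩
  have hfin1 : {M : ℕ | M ≤ X ∧ ¬ ∃ n : Fin k → ℕ, (∀ i, 1 ≤ n i) ∧
      ∑ i, ⌊lam i * (n i : ℝ) ^ k⌋₊ = M}.Finite := (Set.finite_Iic X).subset fun M hM => hM.1
  have h9 := Set.ncard_le_ncard hun (hfin1.union (hPf.image _))
  have h10 := Set.ncard_union_le {M : ℕ | M ≤ X ∧ ¬ ∃ n : Fin k → ℕ, (∀ i, 1 ≤ n i) ∧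
      ∑ i, ⌊lam i * (n i : ℝ) ^ k⌋₊ = M} ((fun n : Fin k → ℕ => ∑ i, ⌊lam i * (n i : ℝ) ^ k⌋₊) '' PP k lam X)
  have h11 := Set.ncard_image_le (f := fun n : Fin k → ℕ => ∑ i, ⌊lam i * (n i : ℝ) ^ k⌋₊) hPf
  have h12 : (Set.Iic X).ncard = X + 1 := by
    rw [← Finset.coe_Iic, Set.ncard_coe_finset, Nat.card_Iic]
  rw [h12] at h9
  have h13 : X + 1 ≤ {M : ℕ | M ≤ X ∧ ¬ ∃ n : Fin k → ℕ, (∀ i, 1 ≤ n i) ∧
      ∑ i, ⌊lam i * (n i : ℝ) ^ k⌋₊ = M}.ncard + (PP k lam X).ncard := by omega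
  have h14 : (X : ℝ) + 1 ≤ ({M : ℕ | M ≤ X ∧ ¬ ∃ n : Fin k → ℕ, (∀ i, 1 ≤ n i) ∧
      ∑ i, ⌊lam i * (n i : ℝ) ^ k⌋₊ = M}.ncard : ℝ) + ((PP k lam X).ncard : ℝ) := by
    exact_mod_cast h13
  have h15 : c₀ = 1 - 2 * δ := by rw [hδ]; ring
  rw [h15] at h5
  nlinarith

end

end Pool.Agent.Run7.h56.MW
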