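import Pool.Agent.Run7.h757.MW.Stm4

/-! # Piece STEP of the project MW (helper757) -/

set_option autoImplicit false
set_option linter.unusedVariables false

open Finset MeasureTheory Filter
open scoped ENNReal

namespace Pool.Agent.Run7.h56.MW

open Pool.Agent.Run7.h757.MW

noncomputable section

theorem meas_add {Ω : Type} [MeasurableSpace Ω] {R : Ω → Set ℕ}
    (hR : ∀ m, MeasurableSet {ω | m ∈ R ω}) (k : ℕ) (W : Set ℕ) (M : ℕ) :
    MeasurableSet {p : ℝ × Ω | M ∈ addR k W (R p.2) p.1} := by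
  have e : {p : ℝ × Ω | M ∈ addR k W (R p.2) p.1} =
      ⋃ n ∈ {n : ℕ | n ∈ W ∧ 1 ≤ n}, ⋃ m : ℕ,
        ({p : ℝ × Ω | m ∈ R p.2} ∩ {p : ℝ × Ω | m + ⌊p.1 * (n : ℝ) ^ k⌋₊ = M}) := by
    ext p
    simp only [addR, Set.mem_ofPred_eq, Set.mem_iUnion, Set.mem_inter_iff, exists_prop]
    constructor
    · rintro ⟨n, hn, h1, m, hm, h⟩
      exact ⟨n, ⟨hn, h1⟩, m, hm, h⟩
    · rintro ⟨n, ⟨hn, h1⟩, m, hm, h⟩
      exact ⟨n, hn, h1, m, hm, h⟩
  rw [e]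
  refine MeasurableSet.biUnion (Set.to_countable _) fun n _ => MeasurableSet.iUnion fun m => ?_
  refine (measurable_snd (hR m)).inter ?_
  have h1 : Measurable fun p : ℝ × Ω => m + ⌊p.1 * (n : ℝ) ^ k⌋₊ :=
    measurable_const.add (Nat.measurable_floor.comp (measurable_fst.mul_const _))
  exact h1 (measurableSet_singleton M)

theorem meas_exc {Ω : Type} [MeasurableSpace Ω] {Q : Ω → Set ℕ}
    (hQ : ∀ M, MeasurableSet {ω | M ∈ Q ω}) (β : ℝ) : MeasurableSet {ω | Exc (Q ω) β} := by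
  classical
  unfold Exc
  simp only [Set.ofPred_exists, Set.ofPred_forall]
  refine MeasurableSet.iUnion fun C => MeasurableSet.iInter fun j => ?_
  have h1 : Measurable fun ω => ((exB (Q ω) j).card : ℝ) := by
    have e : (fun ω => ((exB (Q ω) j).card : ℝ)) =
        fun ω => ∑ M ∈ Ico (2 ^ j) (2 ^ (j + 1)), (if M ∉ Q ω then (1 : ℝ) else 0) := by
      funext ω
      unfold exB
      rw [Finset.card_filter, Nat.cast_sum]
      refine Finset.sum_congr rfl fun M _ => ?_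
      split_ifs <;> simp
    rw [e]
    refine Finset.measurable_sum _ fun M _ => ?_
    exact Measurable.ite (hQ M).compl measurable_const measurable_const
  exact measurableSet_le h1 measurable_const

theorem exists_w {c t : ℝ} {W : Set ℕ} (hc : 0 < c) (hW : Reg c t W) :
    ∃ x₁ : ℝ, 1 ≤ x₁ ∧ ∀ x : ℝ, x₁ ≤ x → ∃ n ∈ W, x < (n : ℝ) ∧ (n : ℝ) ≤ 2 * x := by
  obtain ⟨x₀, hx₀⟩ := hW 0
  refine ⟨max x₀ 2, by linarith [le_max_right x₀ 2], fun x hx => ?_⟩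
  have hx2 : 2 ≤ x := (le_max_right _ _).trans hx
  have h := hx₀ x x ((le_max_left _ _).trans hx) (by rw [Real.rpow_zero, div_one]) le_rfl
  have hpos : 0 < c * x / (Real.log x) ^ t := by
    have h1 : 0 < Real.log x := Real.log_pos (by linarith)
    have h2 : 0 < x := by linarith
    positivity
  have hne : (W ∩ {n : ℕ | x < n ∧ (n : ℝ) ≤ x + x}).ncard ≠ 0 := by
    intro h0
    rw [h0, Nat.cast_zero] at h
    linarith
  obtain ⟨n, hn, h1, h2⟩ := Set.nonempty_of_ncard_ne_zero hne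
  exact ⟨n, hn, h1, by linarith⟩

/-- the pairs of exceptional numbers at a given distance -/
def prs (E : Finset ℕ) (D lam : ℝ) : Finset (ℕ × ℕ) :=
  open Classical in (E ×ˢ E).filter fun e => |lam * D - ((e.1 : ℝ) - e.2)| ≤ 1

theorem meas_one (s D : ℝ) : MeasurableSet {x : ℝ | |x * D - s| ≤ 1} := by
  have h : Measurable fun x : ℝ => |x * D - s| :=
    measurable_norm.comp ((measurable_id.mul_const D).sub_const s)
  exact measurableSet_le h measurable_const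

theorem prs_card (E : Finset ℕ) (D lam : ℝ) : ((prs E D lam).card : ℝ≥0∞) =
    ∑ e ∈ E ×ˢ E, Set.indicator {x : ℝ | |x * D - ((e.1 : ℝ) - e.2)| ≤ 1} (fun _ => (1 : ℝ≥0∞)) lam := by
  classical
  unfold prs
  rw [Finset.card_filter, Nat.cast_sum]
  refine Finset.sum_congr rfl fun e _ => ?_
  by_cases h : |lam * D - ((e.1 : ℝ) - e.2)| ≤ 1
  · rw [if_pos h, Set.indicator_of_mem (by exact h)]
    simp
  · rw [if_neg h, Set.indicator_of_notMem (by exact h)]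
    simp

theorem meas_prs (E : Finset ℕ) (D : ℝ) : Measurable fun lam => ((prs E D lam).card : ℝ≥0∞) := by
  simp only [prs_card]
  refine Finset.measurable_sum _ fun e _ => ?_
  exact measurable_const.indicator (meas_one _ _)

theorem lint_prs (E : Finset ℕ) {D : ℝ} (hD : 0 < D) :
    ∫⁻ lam, ((prs E D lam).card : ℝ≥0∞) ≤ ENNReal.ofReal ((E.card : ℝ) ^ 2 * (2 / D)) := by
  simp only [prs_card]
  rw [lintegral_finsetSum _ fun e _ => measurable_const.indicator (meas_one _ _)]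
  have h1 : ∀ e ∈ E ×ˢ E, (∫⁻ lam, Set.indicator {x : ℝ | |x * D - ((e.1 : ℝ) - e.2)| ≤ 1}
      (fun _ => (1 : ℝ≥0∞)) lam) ≤ ENNReal.ofReal (2 / D) := by
    intro e _
    rw [lintegral_indicator_const (meas_one _ _), one_mul]
    set s : ℝ := (e.1 : ℝ) - e.2 with hs
    have hsub : {x : ℝ | |x * D - s| ≤ 1} ⊆ Set.Icc ((s - 1) / D) ((s + 1) / D) := by
      intro x hx
      have hx0 : |x * D - s| ≤ 1 := hx
      have hx' := abs_le.1 hx0
      constructor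
      · rw [div_le_iff₀ hD]
        linarith [hx'.1]
      · rw [le_div_iff₀ hD]
        linarith [hx'.2]
    refine (measure_mono hsub).trans ?_
    rw [Real.volume_Icc]
    refine ENNReal.ofReal_le_ofReal (le_of_eq ?_)
    ring
  refine (Finset.sum_le_sum h1).trans ?_
  rw [Finset.sum_const, Finset.card_product, nsmul_eq_mul, ENNReal.ofReal_mul (by positivity)]
  refine mul_le_mul_left ?_ _
  rw [← ENNReal.ofReal_natCast]
  refine ENNReal.ofReal_le_ofReal (le_of_eq ?_)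
  push_cast
  ring

theorem card_le {Q : Set ℕ} {k : ℕ} {W : Set ℕ} {w₀ w j A : ℕ} (hw₀ : w₀ ∈ W) (h1 : 1 ≤ w₀)
    (hw : w ∈ W) (h2 : 1 ≤ w) (hj : 1 ≤ j) (h3 : A * w₀ ^ k ≤ 2 ^ (j - 1))
    (h4 : A * w ^ k ≤ 2 ^ (j - 1)) {lam : ℝ} (hl : 0 < lam) (hA : lam ≤ A) :
    (exB (addR k W Q lam) j).card ≤
      (prs (exB Q (j - 1) ∪ exB Q j) ((w : ℝ) ^ k - (w₀ : ℝ) ^ k) lam).card := by
  classical
  have key : ∀ v ∈ W, 1 ≤ v → A * v ^ k ≤ 2 ^ (j - 1) → ⌊lam * (v : ℝ) ^ k⌋₊ ≤ 2 ^ (j - 1) ∧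
      ∀ M ∈ exB (addR k W Q lam) j, M - ⌊lam * (v : ℝ) ^ k⌋₊ ∈ exB Q (j - 1) ∪ exB Q j := by
    intro v hv hv1 hvA
    have hfl : ⌊lam * (v : ℝ) ^ k⌋₊ ≤ 2 ^ (j - 1) := by
      refine le_trans ?_ hvA
      have h5 : lam * (v : ℝ) ^ k ≤ ((A * v ^ k : ℕ) : ℝ) := by
        push_cast
        exact mul_le_mul_of_nonneg_right hA (by positivity)
      have h6 := Nat.floor_le_floor h5
      rwa [Nat.floor_natCast] at h6
    refine ⟨hfl, fun M hM => ?_⟩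
    simp only [exB, Finset.mem_filter, Finset.mem_Ico] at hM
    obtain ⟨⟨hM1, hM2⟩, hM3⟩ := hM
    obtain ⟨i, rfl⟩ : ∃ i, j = i + 1 := ⟨j - 1, by omega⟩
    rw [Nat.add_sub_cancel] at hfl ⊢
    have e1 : 2 ^ (i + 1) = 2 * 2 ^ i := by rw [pow_succ]; ring
    have hR : M - ⌊lam * (v : ℝ) ^ k⌋₊ ∉ Q := by
      intro h
      apply hM3
      exact ⟨v, hv, hv1, _, h, by omega⟩
    rw [Finset.mem_union]
    simp only [exB, Finset.mem_filter, Finset.mem_Ico]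
    by_cases h7 : M - ⌊lam * (v : ℝ) ^ k⌋₊ < 2 ^ (i + 1)
    · exact Or.inl ⟨⟨by omega, h7⟩, hR⟩
    · exact Or.inr ⟨⟨by omega, by omega⟩, hR⟩
  obtain ⟨k1, k2⟩ := key w₀ hw₀ h1 h3
  obtain ⟨k3, k4⟩ := key w hw h2 h4
  have hpow : 2 ^ (j - 1) ≤ 2 ^ j := Nat.pow_le_pow_right (by norm_num) (by omega)
  refine Finset.card_le_card_of_injOn
    (fun M => (M - ⌊lam * (w₀ : ℝ) ^ k⌋₊, M - ⌊lam * (w : ℝ) ^ k⌋₊)) ?_ ?_
  · intro M hM
    have hM' : M ∈ exB (addR k W Q lam) j := hM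
    have hMj : 2 ^ j ≤ M := by
      simp only [exB, Finset.mem_filter, Finset.mem_Ico] at hM'
      exact hM'.1.1
    show (M - ⌊lam * (w₀ : ℝ) ^ k⌋₊, M - ⌊lam * (w : ℝ) ^ k⌋₊) ∈ prs _ _ _
    unfold prs
    rw [Finset.mem_filter, Finset.mem_product]
    refine ⟨⟨k2 M hM', k4 M hM'⟩, ?_⟩
    simp only
    rw [Nat.cast_sub (by omega), Nat.cast_sub (by omega)]
    have f1 := Nat.floor_le (show 0 ≤ lam * (w₀ : ℝ) ^ k by positivity)
    have f2 := Nat.lt_floor_add_one (lam * (w₀ : ℝ) ^ k)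
    have f3 := Nat.floor_le (show 0 ≤ lam * (w : ℝ) ^ k by positivity)
    have f4 := Nat.lt_floor_add_one (lam * (w : ℝ) ^ k)
    rw [abs_le]
    constructor
    · nlinarith
    · nlinarith
  · intro M hM M' hM' h
    have hMj : 2 ^ j ≤ M := by
      have hM2 : M ∈ exB (addR k W Q lam) j := hM
      simp only [exB, Finset.mem_filter, Finset.mem_Ico] at hM2
      exact hM2.1.1
    have hMj' : 2 ^ j ≤ M' := by
      have hM2 : M' ∈ exB (addR k W Q lam) j := hM'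
      simp only [exB, Finset.mem_filter, Finset.mem_Ico] at hM2
      exact hM2.1.1
    have h5 : M - ⌊lam * (w₀ : ℝ) ^ k⌋₊ = M' - ⌊lam * (w₀ : ℝ) ^ k⌋₊ := congrArg Prod.fst h
    omega

/-- the choice of the second element -/
theorem choose_w {k : ℕ} (hk : 1 ≤ k) {W : Set ℕ} {x₁ : ℝ} (hx₁ : 1 ≤ x₁)
    (hW : ∀ x : ℝ, x₁ ≤ x → ∃ n ∈ W, x < (n : ℝ) ∧ (n : ℝ) ≤ 2 * x) (A w₀ : ℕ) :
    ∃ b j₀ : ℕ, 1 ≤ j₀ ∧ b ≤ j₀ ∧ ∀ j, j₀ ≤ j → ∃ w ∈ W, 1 ≤ w ∧ A * w₀ ^ k ≤ 2 ^ (j - 1) ∧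
      A * w ^ k ≤ 2 ^ (j - 1) ∧ 2 ^ (j - b) + w₀ ^ k ≤ w ^ k := by
  obtain ⟨i₁, hi₁⟩ := pow_unbounded_of_one_lt x₁ (one_lt_two : (1 : ℝ) < 2)
  set a := A with ha
  have hAa : A ≤ 2 ^ a := Nat.lt_two_pow_self.le
  set b := 2 + a + 2 * k with hb
  refine ⟨b, 1 + a + (i₁ + 1) * k + b + w₀ ^ k, by omega, by omega, fun j hj => ?_⟩
  obtain ⟨q, hq⟩ : ∃ q, q = (j - 1 - a) / k := ⟨_, rfl⟩
  have hq1 : i₁ + 1 ≤ q := by
    rw [hq, Nat.le_div_iff_mul_le (by omega)]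
    omega
  obtain ⟨i, rfl⟩ : ∃ i, q = i + 1 := ⟨q - 1, by omega⟩
  have hi : i₁ ≤ i := by omega
  have hle : (i + 1) * k ≤ j - 1 - a := by
    rw [hq]
    exact Nat.div_mul_le_self _ _
  have hgt : j - 1 - a < (i + 2) * k := by
    have h1 := Nat.lt_div_mul_add (a := j - 1 - a) (b := k) (by omega)
    rw [← hq] at h1
    calc j - 1 - a < (i + 1) * k + k := h1
      _ = (i + 2) * k := by ring
  have hx : x₁ ≤ (2 : ℝ) ^ i := hi₁.le.trans (pow_le_pow_right₀ (by norm_num) hi)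
  obtain ⟨w, hwW, hw1, hw2⟩ := hW _ hx
  have hw1' : 2 ^ i ≤ w := by
    have : ((2 ^ i : ℕ) : ℝ) < w := by push_cast; exact hw1
    exact (Nat.cast_lt.1 this).le
  have hw2' : w ≤ 2 ^ (i + 1) := by
    have : (w : ℝ) ≤ ((2 ^ (i + 1) : ℕ) : ℝ) := by
      push_cast
      rw [pow_succ]
      linarith
    exact Nat.cast_le.1 this
  have hw0 : w₀ ^ k ≤ 2 ^ (j - b) := by
    calc w₀ ^ k ≤ 2 ^ (w₀ ^ k) := Nat.lt_two_pow_self.le
      _ ≤ 2 ^ (j - b) := Nat.pow_le_pow_right (by norm_num) (by omega)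
  refine ⟨w, hwW, Nat.one_le_two_pow.trans hw1', ?_, ?_, ?_⟩
  · calc A * w₀ ^ k ≤ 2 ^ a * 2 ^ (j - b) := Nat.mul_le_mul hAa hw0
      _ = 2 ^ (a + (j - b)) := by rw [pow_add]
      _ ≤ 2 ^ (j - 1) := Nat.pow_le_pow_right (by norm_num) (by omega)
  · calc A * w ^ k ≤ 2 ^ a * (2 ^ (i + 1)) ^ k := Nat.mul_le_mul hAa (Nat.pow_le_pow_left hw2' k)
      _ = 2 ^ (a + (i + 1) * k) := by rw [← pow_mul, pow_add]
      _ ≤ 2 ^ (j - 1) := Nat.pow_le_pow_right (by norm_num) (by omega)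
  · have h5 : 2 ^ (j - b) + w₀ ^ k ≤ 2 ^ (j - b + 1) := by
      rw [pow_succ]
      omega
    refine h5.trans ?_
    calc 2 ^ (j - b + 1) ≤ 2 ^ (i * k) := by
          refine Nat.pow_le_pow_right (by norm_num) ?_
          have h6 : (i + 2) * k = i * k + 2 * k := by ring
          omega
      _ = (2 ^ i) ^ k := by rw [pow_mul]
      _ ≤ w ^ k := Nat.pow_le_pow_left hw1' k

theorem core {Q : Set ℕ} {k : ℕ} {W : Set ℕ} {c t β β' : ℝ} (hk : 1 ≤ k) (hc : 0 < c)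
    (hW : Reg c t W) (hβ : 2 * β - 1 < β') (hQ : Exc Q β) (A : ℕ) :
    ∀ᵐ lam : ℝ, 0 < lam → lam ≤ A → Exc (addR k W Q lam) β' := by
  obtain ⟨C₁, hC₁⟩ := hQ
  obtain ⟨x₁, hx₁, hWx⟩ := exists_w hc hW
  obtain ⟨w₀, hw₀, hw₀1, -⟩ := hWx x₁ le_rfl
  have hw₀' : 1 ≤ w₀ := by
    have : (1 : ℝ) < w₀ := by linarith
    exact_mod_cast this.le
  obtain ⟨b, j₀, hj1, hbj, hj₀⟩ := choose_w hk hx₁ hWx A w₀
  choose w hwW hw1 hwA0 hwA hwD using fun i : ℕ => hj₀ (j₀ + i) (Nat.le_add_right _ _)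
  set E : ℕ → Finset ℕ := fun i => exB Q (j₀ + i - 1) ∪ exB Q (j₀ + i) with hE
  set D : ℕ → ℝ := fun i => (w i : ℝ) ^ k - (w₀ : ℝ) ^ k with hDdef
  set C₂ : ℝ := C₁ * ((2 : ℝ) ^ (-β) + 1) with hC₂
  have hEc : ∀ i, ((E i).card : ℝ) ≤ C₂ * (2 : ℝ) ^ (β * (j₀ + i : ℕ)) := by
    intro i
    have h1 : ((E i).card : ℝ) ≤ ((exB Q (j₀ + i - 1)).card : ℝ) + ((exB Q (j₀ + i)).card : ℝ) := by
      exact_mod_cast Finset.card_union_le _ _
    have h2 := hC₁ (j₀ + i - 1)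
    have h3 := hC₁ (j₀ + i)
    have h4 : (2 : ℝ) ^ (β * (j₀ + i - 1 : ℕ)) = (2 : ℝ) ^ (-β) * (2 : ℝ) ^ (β * (j₀ + i : ℕ)) := by
      rw [← Real.rpow_add (by norm_num)]
      congr 1
      rw [Nat.cast_sub (by omega)]
      push_cast
      ring
    rw [h4] at h2
    calc ((E i).card : ℝ) ≤ _ := h1
      _ ≤ _ := add_le_add h2 h3
      _ = C₂ * (2 : ℝ) ^ (β * (j₀ + i : ℕ)) := by rw [hC₂]; ring
  have hDl : ∀ i, (2 : ℝ) ^ (j₀ + i : ℕ) / 2 ^ b ≤ D i := by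
    intro i
    have h1 : ((2 ^ (j₀ + i - b) : ℕ) : ℝ) + ((w₀ ^ k : ℕ) : ℝ) ≤ ((w i ^ k : ℕ) : ℝ) := by
      exact_mod_cast hwD i
    push_cast at h1
    have h2 : (2 : ℝ) ^ (j₀ + i : ℕ) / 2 ^ b = (2 : ℝ) ^ (j₀ + i - b) := by
      rw [div_eq_iff (by positivity), ← pow_add]
      congr 1
      omega
    rw [h2]
    simp only [hDdef]
    linarith
  have hD0 : ∀ i, 0 < D i := fun i => lt_of_lt_of_le (by positivity) (hDl i)
  set r : ℝ := (2 : ℝ) ^ (2 * β - 1 - β') with hr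
  have hr0 : 0 < r := by positivity
  have hr1 : r < 1 := Real.rpow_lt_one_of_one_lt_of_neg (by norm_num) (by linarith)
  set H : ℕ → ℝ → ℝ≥0∞ := fun i lam =>
    ENNReal.ofReal ((2 : ℝ) ^ (-(β' * (j₀ + i : ℕ)))) * ((prs (E i) (D i) lam).card : ℝ≥0∞) with hH
  have hHm : ∀ i, Measurable (H i) := fun i => (meas_prs _ _).const_mul _
  have hC₂0 : 0 ≤ C₂ := by positivity
  have hHi : ∀ i, ∫⁻ lam, H i lam ≤ ENNReal.ofReal (C₂ ^ 2 * 2 ^ (b + 1) * r ^ j₀ * r ^ i) := by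
    intro i
    rw [lintegral_const_mul _ (meas_prs _ _)]
    refine (mul_le_mul_right (lint_prs (E i) (hD0 i)) _).trans ?_
    rw [← ENNReal.ofReal_mul (by positivity)]
    refine ENNReal.ofReal_le_ofReal ?_
    have h1 : ((E i).card : ℝ) ^ 2 ≤ (C₂ * (2 : ℝ) ^ (β * (j₀ + i : ℕ))) ^ 2 :=
      pow_le_pow_left₀ (by positivity) (hEc i) 2
    have h2 : 2 / D i ≤ 2 / ((2 : ℝ) ^ (j₀ + i : ℕ) / 2 ^ b) :=
      div_le_div_of_nonneg_left (by norm_num) (by positivity) (hDl i)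
    have h3 : (2 : ℝ) ^ (-(β' * (j₀ + i : ℕ))) * (((E i).card : ℝ) ^ 2 * (2 / D i)) ≤
        (2 : ℝ) ^ (-(β' * (j₀ + i : ℕ))) * ((C₂ * (2 : ℝ) ^ (β * (j₀ + i : ℕ))) ^ 2 *
          (2 / ((2 : ℝ) ^ (j₀ + i : ℕ) / 2 ^ b))) := by
      have h4 : 0 < 2 / D i := div_pos (by norm_num) (hD0 i)
      gcongr
    refine h3.trans (le_of_eq ?_)
    have e1 : (2 : ℝ) ^ (β * (j₀ + i : ℕ)) * (2 : ℝ) ^ (β * (j₀ + i : ℕ)) *
        (2 : ℝ) ^ (-(β' * (j₀ + i : ℕ))) = r ^ (j₀ + i) * 2 ^ (j₀ + i) := by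
      rw [hr, ← Real.rpow_natCast, ← Real.rpow_mul (by norm_num), ← Real.rpow_natCast (2 : ℝ) (j₀ + i),
        ← Real.rpow_add (by norm_num), ← Real.rpow_add (by norm_num), ← Real.rpow_add (by norm_num)]
      congr 1
      ring
    have e2 : (2 : ℝ) ^ (j₀ + i) ≠ 0 := by positivity
    have e3 : (2 : ℝ) ^ b ≠ 0 := by positivity
    have e4 : (2 : ℝ) / ((2 : ℝ) ^ (j₀ + i : ℕ) / 2 ^ b) = 2 ^ (b + 1) / 2 ^ (j₀ + i) := by
      rw [pow_succ]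
      field_simp
    rw [e4]
    calc (2 : ℝ) ^ (-(β' * (j₀ + i : ℕ))) * ((C₂ * (2 : ℝ) ^ (β * (j₀ + i : ℕ))) ^ 2 *
          (2 ^ (b + 1) / 2 ^ (j₀ + i))) = C₂ ^ 2 * ((2 : ℝ) ^ (β * (j₀ + i : ℕ)) * (2 : ℝ) ^ (β * (j₀ + i : ℕ)) *
        (2 : ℝ) ^ (-(β' * (j₀ + i : ℕ)))) * (2 ^ (b + 1) / 2 ^ (j₀ + i)) := by ring
      _ = C₂ ^ 2 * 2 ^ (b + 1) * r ^ j₀ * r ^ i := by
        rw [e1, pow_add r]
        field_simp
  have hsum : ∑' i, ∫⁻ lam, H i lam ≠ ⊤ := by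
    have h1 : Summable fun i : ℕ => C₂ ^ 2 * 2 ^ (b + 1) * r ^ j₀ * r ^ i :=
      (summable_geometric_of_lt_one hr0.le hr1).mul_left _
    have h2 := ENNReal.ofReal_tsum_of_nonneg (fun i => by positivity) h1
    refine ne_top_of_le_ne_top ?_ (ENNReal.tsum_le_tsum hHi)
    rw [← h2]
    exact ENNReal.ofReal_ne_top
  rw [← lintegral_tsum fun i => (hHm i).aemeasurable] at hsum
  have hae := ae_lt_top (Measurable.ennreal_tsum hHm) hsum
  filter_upwards [hae] with lam hlam h0 hA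
  set S : ℝ := (∑' i, H i lam).toReal with hS
  have hS0 : 0 ≤ S := ENNReal.toReal_nonneg
  set S' : ℝ := ∑ j ∈ range j₀, (2 : ℝ) ^ j * (2 : ℝ) ^ (-(β' * (j : ℕ))) with hS'
  have hS'0 : 0 ≤ S' := Finset.sum_nonneg fun j _ => by positivity
  refine ⟨⌈S + S'⌉₊, fun j => ?_⟩
  have hceil : S + S' ≤ ⌈S + S'⌉₊ := Nat.le_ceil _
  have hp : 0 < (2 : ℝ) ^ (β' * j) := by positivity
  have hinv : (2 : ℝ) ^ (-(β' * (j : ℕ))) * (2 : ℝ) ^ (β' * j) = 1 := by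
    rw [← Real.rpow_add (by norm_num), neg_add_cancel, Real.rpow_zero]
  suffices h : (2 : ℝ) ^ (-(β' * (j : ℕ))) * ((exB (addR k W Q lam) j).card : ℝ) ≤ S + S' by
    calc ((exB (addR k W Q lam) j).card : ℝ) =
        ((2 : ℝ) ^ (-(β' * (j : ℕ))) * ((exB (addR k W Q lam) j).card : ℝ)) * (2 : ℝ) ^ (β' * j) := by
          calc ((exB (addR k W Q lam) j).card : ℝ) = ((exB (addR k W Q lam) j).card : ℝ) * 1 := by ring
            _ = _ := by rw [← hinv]; ring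
      _ ≤ (⌈S + S'⌉₊ : ℝ) * (2 : ℝ) ^ (β' * j) :=
          mul_le_mul_of_nonneg_right (h.trans hceil) hp.le
  rcases lt_or_ge j j₀ with hj | hj
  · have h1 : ((exB (addR k W Q lam) j).card : ℝ) ≤ (2 : ℝ) ^ j := by
      have h2 : (exB (addR k W Q lam) j).card ≤ 2 ^ j := by
        classical
        unfold exB
        refine (Finset.card_filter_le _ _).trans ?_
        rw [Nat.card_Ico, pow_succ]
        omega
      exact_mod_cast h2
    have h3 : (2 : ℝ) ^ j * (2 : ℝ) ^ (-(β' * (j : ℕ))) ≤ S' :=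
      Finset.single_le_sum (f := fun j : ℕ => (2 : ℝ) ^ j * (2 : ℝ) ^ (-(β' * (j : ℕ))))
        (fun j _ => by positivity) (Finset.mem_range.2 hj)
    have h4 : 0 < (2 : ℝ) ^ (-(β' * (j : ℕ))) := by positivity
    nlinarith
  · obtain ⟨i, rfl⟩ : ∃ i, j = j₀ + i := ⟨j - j₀, by omega⟩
    have h1 := card_le (Q := Q) hw₀ hw₀' (hwW i) (hw1 i) (by omega) (hwA0 i) (hwA i) h0 hA
    have h2 : H i lam ≤ ∑' i, H i lam := ENNReal.le_tsum i
    have h3 := ENNReal.toReal_mono hlam.ne h2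
    have h4 : (H i lam).toReal = (2 : ℝ) ^ (-(β' * (j₀ + i : ℕ))) * ((prs (E i) (D i) lam).card : ℝ) := by
      simp only [hH]
      rw [ENNReal.toReal_mul, ENNReal.toReal_ofReal (by positivity), ENNReal.toReal_natCast]
    rw [h4] at h3
    have h5 : ((exB (addR k W Q lam) (j₀ + i)).card : ℝ) ≤ ((prs (E i) (D i) lam).card : ℝ) :=
      Nat.cast_le.2 h1
    have h6 : 0 < (2 : ℝ) ^ (-(β' * (j₀ + i : ℕ))) := by positivity
    nlinarith

theorem t_STEP : S_STEP := by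
  intro Ω _ μ _ R k W c t β β' hk hc ht hW hβ hR hE
  have hm1 : MeasurableSet {p : ℝ × Ω | Exc (addR k W (R p.2) p.1) β'} :=
    meas_exc (fun M => meas_add hR k W M) β'
  have hm : MeasurableSet {p : ℝ × Ω | 0 < p.1 → Exc (addR k W (R p.2) p.1) β'} := by
    have e : {p : ℝ × Ω | 0 < p.1 → Exc (addR k W (R p.2) p.1) β'} =
        {p : ℝ × Ω | 0 < p.1}ᶜ ∪ {p : ℝ × Ω | Exc (addR k W (R p.2) p.1) β'} := by
      ext p
      simp only [Set.mem_ofPred_eq, Set.mem_union, Set.mem_compl_iff]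
      tauto
    rw [e]
    exact (measurableSet_lt measurable_const measurable_fst).compl.union hm1
  rw [Measure.ae_prod_iff_ae_ae hm]
  refine (Measure.ae_ae_comm (μ := volume) (ν := μ)
    (p := fun lam ω => 0 < lam → Exc (addR k W (R ω) lam) β') hm).2 ?_
  filter_upwards [hE] with ω hω
  have h1 : ∀ᵐ lam : ℝ, ∀ A : ℕ, 0 < lam → lam ≤ A → Exc (addR k W (R ω) lam) β' :=
    ae_all_iff.2 fun A => core hk hc hW hβ hω A
  filter_upwards [h1] with lam h h0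
  obtain ⟨A, hA⟩ := exists_nat_ge lam
  exact h A h0 hA

end

end Pool.Agent.Run7.h56.MW
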